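import Pool.Agent.helper82.VD.SpecH

set_option autoImplicit false

namespace Pool.Agent.VDG

open Pool.Agent.VD Pool.Agent.VDE MeasureTheory Filter Set Topology
open scoped ENNReal

lemma GFI_eq {d : ℕ} (G : V d → V d →L[ℝ] V d) (Φ : ℝ → P d → P d) (dd : P d → P d → ℝ)
    (hc : Continuous (nrm G : P d → ℝ)) (f : ℝ → Shl G → Shl G) (hf : ∀ (t : ℝ) (x : Shl G), (f t x).1 = Φ t x.1)
    (T : ℝ) (z : Shl G) (ε : ℝ) :
    muS G (BB (fun x y : Shl G => dd x.1 y.1) f T z ε) = liou G (BS G Φ dd T z.1 ε) := by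
  have hm : MeasurableSet {p : P d | nrm G p = 1} := (isClosed_eq hc continuous_const).measurableSet
  have he : MeasurableEmbedding (Subtype.val : Shl G → P d) := MeasurableEmbedding.subtype_coe hm
  have h1 : muS G (BB (fun x y : Shl G => dd x.1 y.1) f T z ε) =
      liou G (Subtype.val '' (BB (fun x y : Shl G => dd x.1 y.1) f T z ε)) := he.comap_apply _ _
  rw [h1]
  congr 1
  ext y
  constructor
  · rintro ⟨w, hw, rfl⟩
    refine ⟨w.2, ?_⟩
    intro s hs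
    have h2 := hw s hs
    simp only [hf] at h2
    exact h2
  · rintro ⟨hy1, hy2⟩
    refine ⟨⟨y, hy1⟩, ?_, rfl⟩
    intro s hs
    have h2 := hy2 s hs
    simp only [hf]
    exact h2

theorem GFI_proof (hHBB : HBB_stmt) (hSCB : SCB_stmt) (hGSH : GSH_stmt) (hGGV : GGV_stmt) (hSNM : SNM_stmt)
    (_hSLF : SLF_stmt) : GFI_stmt := by
  intro m r1 c C e0 e1 Γ _ _ K F0 G Φ dd κ hG hS
  have hC := hS.C1
  have he0 := hS.ep
  have he1 : 0 < e1 := by
    have := hS.el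
    nlinarith
  obtain ⟨C1, ρ0, hρ, hHB⟩ := hHBB m c C e0 hS.cp hC he0
  obtain ⟨C', e', he', -, -, hmain⟩ := hSCB m r1 c C e0 e1 hG.hr hC he0 he1
  obtain ⟨f, κ', F, τ, hf, hκ, hSct⟩ := hmain Γ K F0 G Φ dd κ hG hS
  have hcont := (hSNM (m + 1) G hG.fld.met).1
  have hSH := hGSH _ _ _ _ _ _ _ _ _ _ _ hSct hHB
  obtain ⟨ε0, hε0, hGV⟩ := hGGV _ _ _ _ _ _ _ _ _ _ _ hSct hHB
  constructor
  · refine ⟨ε0, hε0, ?_⟩
    intro ε' ε h1 h2 h3
    obtain ⟨c', hc', h4⟩ := hGV ε' ε h1 h2 h3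
    refine ⟨c', hc', ?_⟩
    intro x T U hx hT hU
    have h5 := h4 (⟨x, hx⟩ : Shl G) T U hT hU
    rw [GFI_eq G Φ dd hcont f hf, GFI_eq G Φ dd hcont f hf, GFI_eq G Φ dd hcont f hf, hf] at h5
    exact h5
  · intro ε hε
    obtain ⟨δ, hδ, h1⟩ := hSH ε hε
    refine ⟨δ, hδ, ?_⟩
    intro n x hx hps
    obtain ⟨z, τ', h2, h3, h4, h5⟩ := h1 n (fun i => (⟨x i, hx i⟩ : Shl G)) (by
      intro i hi
      have h6 := hps i hi
      simp only [hf]
      exact h6)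
    refine ⟨z.1, τ', z.2, h2, h3, ?_, ?_⟩
    · intro i hi s hs
      have h6 := h4 i hi s hs
      simp only [hf] at h6
      exact h6
    · intro i j hij hjn hl
      apply h5 i j hij hjn
      intro l hl1 hl2
      apply Subtype.ext
      rw [hf]
      exact hl l hl1 hl2

end Pool.Agent.VDG
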